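import Mathlib
import Pool.Agent.V11306.SPc

/-!
# MP_de9ce4, Q1: the signs of the twisted products, `p ≡ 1, 7 (mod 24)`
-/

set_option autoImplicit false

namespace Pool.Agent.Results.MP_de9ce4_nt.Signs

open NumberField

/-- The polynomial `S_p(x) = ∏_{k=1}^{(p-1)/2} (x - exp (2 π i k² / p))`. -/
noncomputable def S (p : ℕ) (x : ℂ) : ℂ :=
  ∏ k ∈ Finset.Icc 1 ((p - 1) / 2), (x - Complex.exp (2 * Real.pi * Complex.I * (k : ℂ) ^ 2 / p))

/-- `N_p`, the number of integers `1 ≤ k < p / 12` with `(k/p) = 1`. -/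
noncomputable def N (p : ℕ) [Fact p.Prime] : ℕ :=
  ((Finset.Ico 1 p).filter (fun k : ℕ => 12 * k < p ∧ legendreSym p k = 1)).card

/-- `T_p(ε) = (-1)^(⌊h/2⌋ + N_p) exp (2 π i ε (p - 1) / 48) S_p(exp (2 π i ε / 12))`. -/
noncomputable def T (p : ℕ) [Fact p.Prime] (h : ℕ) (ε : ℤ) : ℂ :=
  (-1) ^ (h / 2 + N p) * Complex.exp (2 * Real.pi * Complex.I * (ε * (p - 1)) / 48) *
    S p (Complex.exp (2 * Real.pi * Complex.I * ε / 12))

/-- `z` is a positive real number. -/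
def IsPos (z : ℂ) : Prop := ∃ r : ℝ, 0 < r ∧ z = r

open Pool.Agent.V11306.SPb Pool.Agent.V11306.SP Pool.Agent.V11306.Toep

variable {p : ℕ} [hpf : Fact p.Prime]

lemma T_pos (h : ℕ) (m : ℕ) (hm : p = 2 * m + 1) : T p h 1 = (-1) ^ (h / 2 + N12 p) *
    Complex.exp (2 * Real.pi * Complex.I * ((1 : ℂ) * (p - 1)) / 48) * SR p xx := by
  rw [T, Int.cast_one, mul_one, ← S_eq m hm]
  rfl

lemma T_neg (h : ℕ) (m : ℕ) (hm : p = 2 * m + 1) : T p h (-1) = (-1) ^ (h / 2 + N12 p) *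
    Complex.exp (-(2 * Real.pi * Complex.I * ((1 : ℂ) * (p - 1)) / 48)) *
      SR p ((starRingEnd ℂ) xx) := by
  rw [T, ← S_eq m hm, xx_conj]
  have e1 : 2 * (Real.pi : ℂ) * Complex.I * ((((-1 : ℤ)) : ℂ) * (p - 1)) / 48 =
      -(2 * Real.pi * Complex.I * ((1 : ℂ) * (p - 1)) / 48) := by push_cast; ring
  have e2 : 2 * (Real.pi : ℂ) * Complex.I * (((-1 : ℤ)) : ℂ) / 12 =
      -(2 * Real.pi * Complex.I / 12) := by push_cast; ring
  rw [e1, e2]
  rfl

lemma case_one (hp3 : 3 < p) (h1 : p % 24 = 1) (h : ℕ) (hh : h / 2 % 2 = (p - 1) / 4 % 2) :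
    IsPos (T p h 1) ∧ IsPos (T p h (-1)) := by
  have h4 : p % 4 = 1 := by omega
  obtain ⟨k, hk⟩ : ∃ k, p = 24 * k + 1 := ⟨p / 24, by omega⟩
  have hm : p = 2 * (12 * k) + 1 := by omega
  obtain ⟨c, hc, e⟩ := T_one hp3 (12 * k) hm h 0 (by rw [sum_one h4]; simp) 1
  have hT : T p h 1 = c := by
    rw [T_pos h _ hm, e]
    have e1 : (-1 : ℂ) ^ (h / 2) = 1 := by
      have : Even (h / 2) := by rw [Nat.even_iff]; omega
      exact this.neg_one_pow
    have e2 : Complex.exp (((1 : ℂ) + 1) * (((12 * k : ℕ) : ℂ) * Real.pi / 12) * Complex.I) = 1 := by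
      have : ((1 : ℂ) + 1) * (((12 * k : ℕ) : ℂ) * Real.pi / 12) * Complex.I =
          ((k : ℤ) : ℂ) * (2 * Real.pi * Complex.I) := by push_cast; ring
      rw [this, exp_two_pi]
    rw [e1, e2]
    simp
  refine ⟨⟨c, hc, hT⟩, ⟨c, hc, ?_⟩⟩
  have h5 : (starRingEnd ℂ) (T p h 1) = T p h (-1) := by
    have h6 := twist_conj (p := p) h 1 _ hm
    rw [Complex.ofReal_one] at h6
    rw [T_pos h _ hm, T_neg h _ hm, map_mul, h6, SR_conj1 h4]
  rw [← h5, hT, Complex.conj_ofReal]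

lemma case_seven (hp3 : 3 < p) (h7 : p % 24 = 7) (h : ℕ) (hodd : h % 2 = 1)
    (hh : ∑ u : ZMod p, quadraticChar (ZMod p) u * (u.val : ℤ) = -(p * (h : ℤ))) :
    IsPos (T p h 1) ∧ IsPos (-T p h (-1)) := by
  obtain ⟨k, hk⟩ : ∃ k, p = 24 * k + 7 := ⟨p / 24, by omega⟩
  have hm : p = 2 * (12 * k + 3) + 1 := by omega
  obtain ⟨c, hc, e⟩ := T_one hp3 (12 * k + 3) hm h h hh 1
  have hexp : Complex.exp (((1 : ℂ) + 1) * (((12 * k + 3 : ℕ) : ℂ) * Real.pi / 12) * Complex.I) =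
      Complex.I := by
    have : ((1 : ℂ) + 1) * (((12 * k + 3 : ℕ) : ℂ) * Real.pi / 12) * Complex.I =
        ((k : ℤ) : ℂ) * (2 * Real.pi * Complex.I) + Real.pi / 2 * Complex.I := by push_cast; ring
    rw [this, Complex.exp_add, exp_two_pi, one_mul, Complex.exp_pi_div_two_mul_I]
  have hT : T p h 1 = c := by
    rw [T_pos h _ hm, e, negI_pow h hodd, hexp]
    linear_combination (-(c : ℂ)) * Complex.I_sq
  refine ⟨⟨c, hc, hT⟩, ?_⟩
  obtain ⟨d, hd, e5⟩ := conj_seven (p := p) (by omega)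
  refine ⟨d * c, by positivity, ?_⟩
  have hp1 : (p : ℂ) - 1 = 2 * (12 * k + 3 : ℕ) := by rw [hm]; push_cast; ring
  set E := Complex.exp (2 * Real.pi * Complex.I * ((1 : ℂ) * (p - 1)) / 48) with hE
  have e6 : Complex.exp (-(2 * Real.pi * Complex.I * ((1 : ℂ) * (p - 1)) / 48)) = -Complex.I * E := by
    have h8 : Complex.exp (-(2 * Real.pi * Complex.I * ((1 : ℂ) * (p - 1)) / 48)) * (E * E) = E := by
      rw [hE, ← mul_assoc, ← Complex.exp_add, neg_add_cancel, Complex.exp_zero, one_mul]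
    have h9 : E * E = Complex.I := by
      rw [← hexp, hE, ← Complex.exp_add, hp1]
      congr 1
      ring
    rw [h9] at h8
    linear_combination (-Complex.I) * h8 + (Complex.exp (-(2 * Real.pi * Complex.I *
      ((1 : ℂ) * (p - 1)) / 48))) * Complex.I_sq
  rw [T_neg h _ hm, e5, e6]
  rw [T_pos h _ hm, ← hE] at hT
  push_cast
  linear_combination (d : ℂ) * hT - ((d : ℂ) * ((-1) ^ (h / 2 + N12 p) * E * SR p xx)) * Complex.I_sq

/-- **Q1 holds.** For every prime `p > 3`, with `K = ℚ(√-p)` and `h(-p)` its class number: the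
numbers `T_p(±1)` are positive if `p ≡ 1 (mod 24)`, and `T_p(1)`, `-T_p(-1)` are positive if
`p ≡ 7 (mod 24)`. -/
theorem result (p : ℕ) [Fact p.Prime] (hp : 3 < p) (K : Type) [Field K] [NumberField K]
    (h2 : Module.finrank ℚ K = 2) (α : K) (hα : α ^ 2 = -(p : K)) :
    (p % 24 = 1 → IsPos (T p (classNumber K) 1) ∧ IsPos (T p (classNumber K) (-1))) ∧
    (p % 24 = 7 → IsPos (T p (classNumber K) 1) ∧ IsPos (-T p (classNumber K) (-1))) := by
  constructor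
  · intro h1
    exact case_one hp h1 _ (Pool.Agent.V11306.H4.half_class (by omega) K h2 α hα)
  · intro h7
    have hodd := (Fact.out : p.Prime).eq_two_or_odd
    exact case_seven hp h7 _ (mordell (by omega) hp ((p - 1) / 2) (by omega) K h2 α hα).1
      (class_val (by omega) hp K h2 α hα)

end Pool.Agent.Results.MP_de9ce4_nt.Signs
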